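import Mathlib
import Pool.Agent.Q235.FI.Main

set_option autoImplicit false

/-!
# MP_17669a_mp, Q1: for every `q > 3` there is a nonzero antisymmetric potential of period `q`
that is Floquet isospectral to the zero potential.
-/

namespace Pool.Agent.Results.MP_17669a_mp.AntisymmetricIsospectral

noncomputable section

/-- The Floquet matrix `L_V(z)` (rows and columns `0, …, q-1`): the potential on the diagonal, `1`
next to it, `z⁻¹` in the upper right corner and `z` in the lower left corner. -/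
def L {q : ℕ} (V : Fin q → ℂ) (z : ℂ) : Matrix (Fin q) (Fin q) ℂ := fun i j =>
  if i = j then V i
  else if (i : ℕ) + 1 = j ∨ (j : ℕ) + 1 = i then 1
  else if (i : ℕ) = 0 ∧ (j : ℕ) + 1 = q then z⁻¹
  else if (i : ℕ) + 1 = q ∧ (j : ℕ) = 0 then z
  else 0

/-- `V` and `W` are Floquet isospectral. -/
def Isospectral {q : ℕ} (V W : Fin q → ℂ) : Prop :=
  ∀ z : ℂ, ‖z‖ = 1 → (L V z).charpoly = (L W z).charpoly

/-- `V = (v_1, …, v_q)` is antisymmetric: `v_j = - v_(q+1-j)`. -/
def Antisymmetric {q : ℕ} (V : Fin q → ℂ) : Prop := ∀ j, V j = - V j.rev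

theorem L_eq {q : ℕ} (hq : 3 < q) (V : Fin q → ℂ) (z : ℂ) :
    L V z = Pool.Agent.Q235.FL.Lz q V z z⁻¹ := by
  funext i j
  unfold L Pool.Agent.Q235.FL.Lz
  have hi := i.isLt
  have hj := j.isLt
  by_cases h1 : i = j
  · rw [if_pos h1, if_pos (by rw [h1]), if_neg (by rw [h1]; omega), if_neg (by rw [h1]; omega),
      if_neg (by rw [h1]; omega), if_neg (by rw [h1]; omega)]
    ring
  · have h1' : ¬ (i : ℕ) = j := fun h => h1 (Fin.ext h)
    rw [if_neg h1, if_neg h1']
    by_cases h2 : (i : ℕ) + 1 = j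
    · rw [if_pos (Or.inl h2), if_pos h2, if_neg (by omega), if_neg (by omega), if_neg (by omega)]
      ring
    · by_cases h3 : (j : ℕ) + 1 = i
      · rw [if_pos (Or.inr h3), if_neg h2, if_pos h3, if_neg (by omega), if_neg (by omega)]
        ring
      · rw [if_neg (by omega), if_neg h2, if_neg h3]
        by_cases h4 : (i : ℕ) = 0 ∧ (j : ℕ) + 1 = q
        · rw [if_pos h4, if_pos h4, if_neg (by omega)]
          ring
        · rw [if_neg h4, if_neg h4]
          ring

theorem result (q : ℕ) (hq : 3 < q) :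
    ∃ V : Fin q → ℂ, V ≠ 0 ∧ Antisymmetric V ∧ Isospectral V 0 := by
  obtain ⟨v, ⟨j, hj, hvj⟩, hv2, hv3⟩ := Pool.Agent.Q235.FI.main q hq
  refine ⟨fun i => v i, ?_, ?_, ?_⟩
  · intro h
    exact hvj (congrFun h ⟨j, hj⟩)
  · intro i
    show v i = - v (i.rev : ℕ)
    rw [hv2 i i.isLt, Fin.val_rev]
    congr 2
    omega
  · intro z hz
    have hz0 : z ≠ 0 := by
      rintro rfl
      simp at hz
    rw [L_eq hq, L_eq hq]
    exact hv3 z hz0

end

end Pool.Agent.Results.MP_17669a_mp.AntisymmetricIsospectral
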